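import Pool.Agent.KS6_69.CX.Base

/-!
# A Coxeter group quasi-dividing the hyperbolic plane without any reflection in its image

The free product `W` of three groups of order two has a faithful representation into `SL (3, ℝ)` which
quasi-divides the open disc (the Klein model of the hyperbolic plane), and no element of its
image is a projective reflection. The representation is that of an earlier run.
-/

set_option autoImplicit false
open Matrix

namespace Pool.Agent.Results.MP_2ee781_gt.NoReflections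

open Pool.Agent.KS6_69.CX

/-- Twice the Hilbert metric is the logarithm of the cross ratio; for a properly convex open cone `C` it
is expressed by the two numbers `inf {t | t y - x ∈ closure C}` and
`inf {t | t x - y ∈ closure C}`. -/
noncomputable def hilbertDist {n : ℕ} (C : Set (Fin n → ℝ)) (x y : Fin n → ℝ) : ℝ :=
  (1 / 2) * Real.log (sInf {t : ℝ | t • y - x ∈ closure C} * sInf {t : ℝ | t • x - y ∈ closure C})

/-- The diameter for the Hilbert metric. -/
noncomputable def hilbertDiam {n : ℕ} (C U : Set (Fin n → ℝ)) : ENNReal :=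
  ⨆ x ∈ U, ⨆ y ∈ U, ENNReal.ofReal (hilbertDist C x y)

/-- The `d`-dimensional Hausdorff measure for the Hilbert metric. -/
noncomputable def hilbertMeasure {n : ℕ} (C : Set (Fin n → ℝ)) (d : ℕ) (F : Set (Fin n → ℝ)) :
    ENNReal :=
  ⨆ (r : ℝ) (_ : 0 < r), ⨅ (U : ℕ → Set (Fin n → ℝ)) (_ : F ⊆ ⋃ i, U i)
    (_ : ∀ i, U i ⊆ C ∧ hilbertDiam C (U i) ≤ ENNReal.ofReal r), ∑' i, hilbertDiam C (U i) ^ d

/-- A nonempty open convex cone whose closure contains no line. -/
structure IsProperCone {n : ℕ} (C : Set (Fin n → ℝ)) : Prop where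
  isOpen : IsOpen C
  convex : Convex ℝ C
  nonempty : C.Nonempty
  cone : ∀ x ∈ C, ∀ t : ℝ, 0 < t → t • x ∈ C
  noLine : ∀ x v : Fin n → ℝ, v ≠ 0 → ∃ t : ℝ, x + t • v ∉ closure C

/-- The representation `ρ` of `W` on `ℝ ^ (d + 1)` preserves `C`, its image is discrete, and some subset of
`C` of finite `d`-dimensional Hilbert measure meets all orbits. -/
structure QuasiDivides {W : Type} [Group W] {d : ℕ} (ρ : W →* (Matrix (Fin (d + 1)) (Fin (d + 1)) ℝ)ˣ)
    (C : Set (Fin (d + 1) → ℝ)) : Prop where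
  preserves : ∀ (w : W) (x : Fin (d + 1) → ℝ), x ∈ C → (ρ w).val *ᵥ x ∈ C
  discrete : ∃ ε : ℝ, 0 < ε ∧ ∀ w : W,
    (∀ i j, |(ρ w).val i j - (1 : Matrix (Fin (d + 1)) (Fin (d + 1)) ℝ) i j| < ε) → ρ w = 1
  finiteVolume : ∃ F ⊆ C, (∀ x ∈ C, ∃ w : W, (ρ w).val *ᵥ x ∈ F) ∧ hilbertMeasure C d F < ⊤

/-- A projective reflection. -/
def IsReflection {n : ℕ} (g : Matrix (Fin n) (Fin n) ℝ) : Prop :=
  ∃ α v : Fin n → ℝ, α ⬝ᵥ v = 2 ∧ g = 1 - Matrix.vecMulVec v α

lemma det_reflection (g : Matrix (Fin 3) (Fin 3) ℝ) (h : IsReflection g) : g.det = -1 := by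
  obtain ⟨α, v, h1, rfl⟩ := h
  have h2 : α 0 * v 0 + α 1 * v 1 + α 2 * v 2 = 2 := by
    simpa [dotProduct, Fin.sum_univ_three] using h1
  simp only [det_fin_three, Matrix.sub_apply, vecMulVec_apply, Matrix.one_apply_eq]
  rw [Matrix.one_apply_ne (show (0 : Fin 3) ≠ 1 by decide),
    Matrix.one_apply_ne (show (0 : Fin 3) ≠ 2 by decide),
    Matrix.one_apply_ne (show (1 : Fin 3) ≠ 0 by decide),
    Matrix.one_apply_ne (show (1 : Fin 3) ≠ 2 by decide),
    Matrix.one_apply_ne (show (2 : Fin 3) ≠ 0 by decide),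
    Matrix.one_apply_ne (show (2 : Fin 3) ≠ 1 by decide)]
  linear_combination -h2

/-- The Coxeter group `W` with three generators and no relations between different ones (`MM` is the
Coxeter matrix with `1` on the diagonal and `0`, that is infinity, elsewhere) has a faithful
representation `ρ` by matrices of determinant one which quasi-divides the round cone `C`, that is
`x₀ x₁ + x₀ x₂ + x₁ x₂ > 0`, `x₀ + x₁ > 0`, and no element of `ρ (W)` is a projective reflection.
So (i) fails for every generator and for every Coxeter generating set of the group `W`. -/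
theorem result : ∃ ρ : MM.Group →* (Matrix (Fin 3) (Fin 3) ℝ)ˣ,
    Function.Injective ρ ∧ (∀ w, (ρ w).val.det = 1) ∧
      IsProperCone C ∧ QuasiDivides (d := 2) ρ C ∧ ∀ w, ¬ IsReflection (ρ w).val := by
  refine ⟨ρ, ρ_inj, ρ_det, ⟨?_, ?_, ⟨_, one_C⟩, ?_, ?_⟩, ⟨ρ_C, ⟨1, one_pos, ?_⟩,
    ⟨F, fun x hx => hx.1, cover, ?_⟩⟩, fun w hw => ?_⟩
  rotate_right
  · have := det_reflection _ hw
    rw [ρ_det] at this
    norm_num at this
  · exact IsOpen.and (isOpen_lt (by fun_prop) (by fun_prop))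
      (isOpen_lt (by fun_prop) (by unfold Q; fun_prop))
  · intro x hx y hy a b ha hb hab
    obtain ⟨p1, p2, p3⟩ := C_pos hx
    obtain ⟨q1, q2, q3⟩ := C_pos hy
    have p := hx.2
    have q := hy.2
    have m : 0 < (x 0 + x 1) * (y 1 + y 2) + (y 0 + y 1) * (x 1 + x 2) - 2 * x 1 * y 1 := by
      refine pos_of_mul_pos_left (b := (x 0 + x 1) * (y 0 + y 1)) ?_ (by positivity)
      have m1 := mul_pos (pow_pos p1 2) q
      have m2 := mul_pos (pow_pos q1 2) p
      unfold Q at m1 m2
      nlinarith [sq_nonneg ((x 0 + x 1) * y 1 - (y 0 + y 1) * x 1)]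
    have e : Q (a • x + b • y) = a ^ 2 * Q x + b ^ 2 * Q y + a * b *
        ((x 0 + x 1) * (y 1 + y 2) + (y 0 + y 1) * (x 1 + x 2) - 2 * x 1 * y 1) := by
      simp only [Q, Pi.add_apply, Pi.smul_apply, smul_eq_mul]; ring
    have e2 : (a • x + b • y) 0 + (a • x + b • y) 1 = a * (x 0 + x 1) + b * (y 0 + y 1) := by
      simp only [Pi.add_apply, Pi.smul_apply, smul_eq_mul]; ring
    refine ⟨?_, ?_⟩
    · rw [e2]
      rcases ha.eq_or_lt with rfl | ha
      · have : 0 < b := by linarith
        positivity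
      · positivity
    · rw [e]
      rcases ha.eq_or_lt with rfl | ha
      · have : 0 < b := by linarith
        positivity
      · positivity
  · intro x hx t ht
    refine ⟨?_, (mul_pos (pow_pos ht 2) hx.2).trans_eq ?_⟩
    · simp only [Pi.smul_apply, smul_eq_mul]
      rw [← mul_add]
      exact mul_pos ht hx.1
    · simp only [Q, Pi.smul_apply, smul_eq_mul]; ring
  · intro x v hv
    by_contra hc
    have hc := fun t => cl (not_not.1 (not_exists.1 hc t))
    simp only [Q, Pi.add_apply, Pi.smul_apply, smul_eq_mul] at hc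
    have lin : ∀ a b : ℝ, (∀ t, 0 ≤ a + t * b) → b = 0 := fun a b hab => by
      by_contra hb
      have := hab (-(a + 1) / b)
      rw [div_mul_cancel₀ _ hb] at this
      linarith
    have e1 := lin (x 0 + x 1) (v 0 + v 1) fun t => by linarith [(hc t).1]
    have e2 := lin (x 1 + x 2) (v 1 + v 2) fun t => by linarith [(hc t).2.1]
    have e0 : v 0 = -v 1 := by linarith
    have e3 : v 2 = -v 1 := by linarith
    have e4 : v 1 = 0 := by
      by_contra hb
      have := (hc (((x 0 + x 1) * (x 1 + x 2) + 1 - x 1) / v 1)).2.2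
      simp only [e0, e3, mul_neg, div_mul_cancel₀ _ hb] at this
      nlinarith [sq_nonneg ((x 0 + x 1) * (x 1 + x 2) + 1 / 2)]
    refine hv (funext fun i => ?_)
    rcases fin3 i with rfl | rfl | rfl <;> simp [e0, e3, e4]
  · intro w hw
    obtain ⟨B, hB⟩ := ρ_int w
    refine Units.ext (hB.trans ?_)
    have : B = 1 := by
      ext i j
      have := hw i j
      rw [hB, map_apply, show (1 : Matrix (Fin 3) (Fin 3) ℝ) i j =
        ((1 : Matrix (Fin 3) (Fin 3) ℤ) i j : ℤ) by simp [one_apply]] at this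
      have : |B i j - (1 : Matrix (Fin 3) (Fin 3) ℤ) i j| < 1 := by exact_mod_cast this
      linarith [Int.abs_lt_one_iff.1 this]
    simp [this]
  · refine lt_of_le_of_lt (iSup₂_le fun r hr => ?_) (ENNReal.ofReal_lt_top (r := 2000))
    obtain ⟨N, hN⟩ := exists_nat_ge (max 8 (16 / r))
    have n8 : (8 : ℝ) ≤ N := (le_max_left _ _).trans hN
    have nr := (div_le_iff₀ hr).1 ((le_max_right _ _).trans hN)
    have b : ∀ k : ℕ, (⨆ x ∈ {x ∈ F | idx N x = k}, ⨆ y ∈ {x ∈ F | idx N x = k}, ENNReal.ofReal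
        ((1 / 2) * Real.log (sInf {t : ℝ | t • y - x ∈ closure C}
          * sInf {t : ℝ | t • x - y ∈ closure C}))) ≤
        ENNReal.ofReal (4 * (16 * N / (4 * N ^ 2 + k))) := fun k =>
      iSup₂_le fun x hx => iSup₂_le fun y hy => ENNReal.ofReal_le_ofReal
        (box (by exact_mod_cast n8) hx.1 hy.1 hx.2 hy.2)
    refine iInf_le_of_le (fun k => {x ∈ F | idx N x = k}) (iInf_le_of_le
      (fun x hx => Set.mem_iUnion.2 ⟨_, hx, rfl⟩) (iInf_le_of_le (fun k => ⟨fun x hx => hx.1.1,
        (b k).trans (ENNReal.ofReal_le_ofReal ?_)⟩) ?_))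
    · have k0 : (0 : ℝ) ≤ k := Nat.cast_nonneg k
      rw [← mul_div_assoc, div_le_iff₀ (by positivity)]
      nlinarith [mul_nonneg hr.le k0]
    · refine ENNReal.tsum_le_of_sum_range_le fun n => (Finset.sum_le_sum fun k _ =>
        (pow_le_pow_left' (b k) 2).trans_eq (ENNReal.ofReal_pow (by positivity) 2).symm).trans ?_
      rw [← ENNReal.ofReal_sum_of_nonneg fun k _ => by positivity]
      refine ENNReal.ofReal_le_ofReal ?_
      have t := tele (a := 4 * (N : ℝ) ^ 2) (by nlinarith) n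
      have n0 : (0 : ℝ) ≤ n := Nat.cast_nonneg n
      have t2 : 0 ≤ 1 / (4 * (N : ℝ) ^ 2 + n - 1) := div_nonneg zero_le_one (by nlinarith)
      have t3 : 4096 * (N : ℝ) ^ 2 * (1 / (4 * (N : ℝ) ^ 2 - 1)) ≤ 2000 := by
        rw [mul_one_div, div_le_iff₀ (by nlinarith)]
        nlinarith
      rw [Finset.sum_congr rfl (g := fun k : ℕ => 4096 * (N : ℝ) ^ 2 * (1 / (4 * (N : ℝ) ^ 2 + k) ^ 2))
        fun k _ => by field_simp; ring, ← Finset.mul_sum]
      exact (mul_le_mul_of_nonneg_left (by linarith) (by positivity)).trans t3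

end Pool.Agent.Results.MP_2ee781_gt.NoReflections
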